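import Mathlib

/-!
A 3-equilateral 9-gon which spans `E³`.
-/

namespace Q148.Equi

/-- An `n`-gon in `E^d`, i.e. a cyclically ordered `n`-tuple of points, is `k`-equilateral if for
each `j = 1, …, k` the distance of the vertices `i` and `i + j` is the same for all `i`. -/
def KEquilateral (k : ℕ) {n d : ℕ} (x : ZMod n → EuclideanSpace ℝ (Fin d)) : Prop :=
  ∀ j : ℕ, 1 ≤ j → j ≤ k → ∃ c : ℝ, ∀ i : ZMod n, dist (x i) (x (i + (j : ZMod n))) = c

/-- The polygon spans `E^m`: the affine hull of its vertices has dimension `m`. -/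
def Spans {n d : ℕ} (x : ZMod n → EuclideanSpace ℝ (Fin d)) (m : ℕ) : Prop :=
  Module.finrank ℝ (vectorSpan ℝ (Set.range x)) = m

/-- The 9-gon: three equilateral triangles of side 3 with a common axis, at the heights 0, 1, 2. -/
noncomputable def nine : ZMod 9 → EuclideanSpace ℝ (Fin 3) :=
  ![!₂[√3, 0, 0], !₂[-√3, 0, 1], !₂[√3, 0, 2],
    !₂[-(√3 / 2), 3 / 2, 0], !₂[√3 / 2, -(3 / 2), 1], !₂[-(√3 / 2), 3 / 2, 2],
    !₂[-(√3 / 2), -(3 / 2), 0], !₂[√3 / 2, 3 / 2, 1], !₂[-(√3 / 2), -(3 / 2), 2]]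

theorem s3 : √3 * √3 = 3 := Real.mul_self_sqrt (by norm_num)

theorem n0 : nine 0 = !₂[√3, 0, 0] := rfl
theorem n1 : nine 1 = !₂[-√3, 0, 1] := rfl
theorem n2 : nine 2 = !₂[√3, 0, 2] := rfl
theorem n3 : nine 3 = !₂[-(√3 / 2), 3 / 2, 0] := rfl
theorem n4 : nine 4 = !₂[√3 / 2, -(3 / 2), 1] := rfl
theorem n5 : nine 5 = !₂[-(√3 / 2), 3 / 2, 2] := rfl
theorem n6 : nine 6 = !₂[-(√3 / 2), -(3 / 2), 0] := rfl
theorem n7 : nine 7 = !₂[√3 / 2, 3 / 2, 1] := rfl
theorem n8 : nine 8 = !₂[-(√3 / 2), -(3 / 2), 2] := rfl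

theorem dist_aux (a b c a' b' c' s : ℝ)
    (h : (a - a') ^ 2 + (b - b') ^ 2 + (c - c') ^ 2 = s) :
    dist (!₂[a, b, c] : EuclideanSpace ℝ (Fin 3)) !₂[a', b', c'] = √s := by
  rw [EuclideanSpace.dist_eq, Fin.sum_univ_three, ← h]
  simp only [Real.dist_eq, sq_abs]
  simp

theorem dist_one (i : ZMod 9) : dist (nine i) (nine (i + 1)) = √13 := by
  have hs := s3
  have h : ∀ j : ZMod 9, j = 0 ∨ j = 1 ∨ j = 2 ∨ j = 3 ∨ j = 4 ∨ j = 5 ∨ j = 6 ∨ j = 7 ∨ j = 8 := by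
    decide
  rcases h i with rfl | rfl | rfl | rfl | rfl | rfl | rfl | rfl | rfl
  · rw [show (0 : ZMod 9) + 1 = 1 from rfl, n0, n1]; apply dist_aux; nlinarith
  · rw [show (1 : ZMod 9) + 1 = 2 from rfl, n1, n2]; apply dist_aux; nlinarith
  · rw [show (2 : ZMod 9) + 1 = 3 from rfl, n2, n3]; apply dist_aux; nlinarith
  · rw [show (3 : ZMod 9) + 1 = 4 from rfl, n3, n4]; apply dist_aux; nlinarith
  · rw [show (4 : ZMod 9) + 1 = 5 from rfl, n4, n5]; apply dist_aux; nlinarith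
  · rw [show (5 : ZMod 9) + 1 = 6 from rfl, n5, n6]; apply dist_aux; nlinarith
  · rw [show (6 : ZMod 9) + 1 = 7 from rfl, n6, n7]; apply dist_aux; nlinarith
  · rw [show (7 : ZMod 9) + 1 = 8 from rfl, n7, n8]; apply dist_aux; nlinarith
  · rw [show (8 : ZMod 9) + 1 = 0 from rfl, n8, n0]; apply dist_aux; nlinarith

theorem dist_two (i : ZMod 9) : dist (nine i) (nine (i + 2)) = √4 := by
  have hs := s3
  have h : ∀ j : ZMod 9, j = 0 ∨ j = 1 ∨ j = 2 ∨ j = 3 ∨ j = 4 ∨ j = 5 ∨ j = 6 ∨ j = 7 ∨ j = 8 := by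
    decide
  rcases h i with rfl | rfl | rfl | rfl | rfl | rfl | rfl | rfl | rfl
  · rw [show (0 : ZMod 9) + 2 = 2 from rfl, n0, n2]; apply dist_aux; nlinarith
  · rw [show (1 : ZMod 9) + 2 = 3 from rfl, n1, n3]; apply dist_aux; nlinarith
  · rw [show (2 : ZMod 9) + 2 = 4 from rfl, n2, n4]; apply dist_aux; nlinarith
  · rw [show (3 : ZMod 9) + 2 = 5 from rfl, n3, n5]; apply dist_aux; nlinarith
  · rw [show (4 : ZMod 9) + 2 = 6 from rfl, n4, n6]; apply dist_aux; nlinarith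
  · rw [show (5 : ZMod 9) + 2 = 7 from rfl, n5, n7]; apply dist_aux; nlinarith
  · rw [show (6 : ZMod 9) + 2 = 8 from rfl, n6, n8]; apply dist_aux; nlinarith
  · rw [show (7 : ZMod 9) + 2 = 0 from rfl, n7, n0]; apply dist_aux; nlinarith
  · rw [show (8 : ZMod 9) + 2 = 1 from rfl, n8, n1]; apply dist_aux; nlinarith

theorem dist_three (i : ZMod 9) : dist (nine i) (nine (i + 3)) = √9 := by
  have hs := s3
  have h : ∀ j : ZMod 9, j = 0 ∨ j = 1 ∨ j = 2 ∨ j = 3 ∨ j = 4 ∨ j = 5 ∨ j = 6 ∨ j = 7 ∨ j = 8 := by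
    decide
  rcases h i with rfl | rfl | rfl | rfl | rfl | rfl | rfl | rfl | rfl
  · rw [show (0 : ZMod 9) + 3 = 3 from rfl, n0, n3]; apply dist_aux; nlinarith
  · rw [show (1 : ZMod 9) + 3 = 4 from rfl, n1, n4]; apply dist_aux; nlinarith
  · rw [show (2 : ZMod 9) + 3 = 5 from rfl, n2, n5]; apply dist_aux; nlinarith
  · rw [show (3 : ZMod 9) + 3 = 6 from rfl, n3, n6]; apply dist_aux; nlinarith
  · rw [show (4 : ZMod 9) + 3 = 7 from rfl, n4, n7]; apply dist_aux; nlinarith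
  · rw [show (5 : ZMod 9) + 3 = 8 from rfl, n5, n8]; apply dist_aux; nlinarith
  · rw [show (6 : ZMod 9) + 3 = 0 from rfl, n6, n0]; apply dist_aux; nlinarith
  · rw [show (7 : ZMod 9) + 3 = 1 from rfl, n7, n1]; apply dist_aux; nlinarith
  · rw [show (8 : ZMod 9) + 3 = 2 from rfl, n8, n2]; apply dist_aux; nlinarith

theorem equi : KEquilateral 3 nine := by
  intro j h1 h3
  interval_cases j
  · exact ⟨√13, fun i => by simpa using dist_one i⟩
  · exact ⟨√4, fun i => by simpa using dist_two i⟩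
  · exact ⟨√9, fun i => by simpa using dist_three i⟩

theorem span_top : vectorSpan ℝ (Set.range nine) = ⊤ := by
  have h3 : (0 : ℝ) < √3 := Real.sqrt_pos.2 (by norm_num)
  rw [eq_top_iff]
  intro v _
  have m : ∀ i j : ZMod 9, nine i - nine j ∈ vectorSpan ℝ (Set.range nine) := fun i j =>
    vsub_mem_vectorSpan ℝ (Set.mem_range_self i) (Set.mem_range_self j)
  -- v = α (x₂ - x₀) + β (x₁ - x₀) + γ (x₃ - x₀)
  have key : v = ((v 2) / 2 - (-(v 0) / (2 * √3) - (v 1) / 2) / 2) • (nine 2 - nine 0) +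
      (-(v 0) / (2 * √3) - (v 1) / 2) • (nine 1 - nine 0) + (2 / 3 * v 1) • (nine 3 - nine 0) := by
    rw [n0, n1, n2, n3]
    ext i
    fin_cases i
    · simp
      field_simp
      ring
    · simp
      ring
    · simp
      ring
  rw [key]
  exact Submodule.add_mem _ (Submodule.add_mem _ (Submodule.smul_mem _ _ (m 2 0))
    (Submodule.smul_mem _ _ (m 1 0))) (Submodule.smul_mem _ _ (m 3 0))

theorem spans : Spans nine 3 := by
  unfold Spans
  rw [span_top, finrank_top]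
  simp

end Q148.Equi

namespace Pool.Agent.Results.MP_fb0157_co.EquilateralNine

open Q148.Equi

/-- **MP_fb0157_co, Q2 is false**: there are `k ≥ 2`, an odd `n > 2 k + 1` and a
`(k + 1)`-equilateral `n`-gon which spans `E^(2 k - 1)`; namely `k = 2`, `n = 9`. -/
theorem result : ∃ k n : ℕ, 2 ≤ k ∧ Odd n ∧ 2 * k + 1 < n ∧
    ∃ (d : ℕ) (x : ZMod n → EuclideanSpace ℝ (Fin d)), KEquilateral (k + 1) x ∧ Spans x (2 * k - 1) :=
  ⟨2, 9, le_rfl, by decide, by norm_num, 3, nine, equi, spans⟩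

end Pool.Agent.Results.MP_fb0157_co.EquilateralNine
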